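import Pool.Agent.Helper25_AEU.Stmt

/-!
helper39, squad AEU (Part II), module C3b: the critical body is not a diagonal.
-/

namespace Pool.Agent.AEU.H39

open Pool.Agent.AEU Pool.Agent.H62T
open Pool.Agent.H16F (Sublin)

lemma vx_symm' {P : Finset HP} {s t : HP} {v : ℂ} (h : VxOf P s t v) : VxOf P t s v :=
  ⟨h.cl, h.mem₂, h.mem₁, h.ne.symm, h.on₂, h.on₁⟩

lemma mv_inj' (hact : ActStatement) (g : Iso2) {s t : HP} (h : mv g s = mv g t) : s = t := by
  obtain ⟨h1, h2, -⟩ := hact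
  have e : mv g⁻¹ (mv g s) = mv g⁻¹ (mv g t) := by rw [h]
  rw [← h1, ← h1, inv_mul_cancel, h2, h2] at e
  exact e

/-- Gram identity -/
lemma gram (a b z : ℂ) (ha : ‖a‖ = 1) (hb : ‖b‖ = 1) :
    ‖z‖ ^ 2 * dt a b ^ 2 = ip a z ^ 2 + ip b z ^ 2 - 2 * ip a b * (ip a z * ip b z) := by
  have ha' : a.re ^ 2 + a.im ^ 2 = 1 := by
    have := Complex.sq_norm a
    rw [ha, Complex.normSq_apply] at this
    linarith only [this]
  have hb' : b.re ^ 2 + b.im ^ 2 = 1 := by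
    have := Complex.sq_norm b
    rw [hb, Complex.normSq_apply] at this
    linarith only [this]
  rw [Complex.sq_norm, Complex.normSq_apply]
  unfold ip dt
  linear_combination (a.re * z.re + a.im * z.im) ^ 2 * hb' + (b.re * z.re + b.im * z.im) ^ 2 * ha'

lemma ip_sub' (u a b : ℂ) : ip u (a - b) = ip u a - ip u b := by
  simp [ip]; ring

/-- the main case: sliding at `w` along `k`, at `v` along `i` -/
lemma core_case (hlm : LmStatement) (huni : UniStatement) (hver : VerStatement)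
    (hmix : MixStatement) (hhul : HulStatement) (hper : PerStatement) (hact : ActStatement)
    {P Q : Finset HP} (hP : Gen P) (hQ : Gen Q) {L : ℝ} {h : ℂ → ℝ} (hcr : Crit P Q L h)
    {i j k l : HP} {v w : ℂ} (hv : VxOf P i j v) (hw : VxOf P k l w) (hvh : In v h)
    (hwh : In w h) (ik : i ≠ k) (il : i ≠ l) (jk : j ≠ k) (jl : j ≠ l) (hb : h = hf ![v, w])
    (htou : ∀ s ∈ touch P h, s = i ∨ s = j ∨ s = k ∨ s = l)
    {g₁ g₂ : Iso2} (hf₁ : Fits Q (mb g₁ h)) (hf₂ : Fits Q (mb g₂ h)) (i₁ : mv g₁ i ∈ Q)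
    (j₁ : mv g₁ j ∈ Q) (k₁ : mv g₁ k ∈ Q) (k₂ : mv g₂ k ∈ Q) (l₂ : mv g₂ l ∈ Q)
    (i₂ : mv g₂ i ∈ Q) : False := by
  have hact0 := hact
  obtain ⟨hmul, hone, hmbmul, hmbone, hmbmv, hipmv, hIn, hip, hdt, hnorm, hsubl, hmixact, hhf, -⟩ :=
    hact
  rcases (huni.2 P Q hP.pg hQ.pg hP.g1 hQ.g1 g₁ g₂).1 i hv.mem₁ k hw.mem₁ ik i₁ k₁ i₂ k₂ with
    hgg | ⟨ea, eb⟩
  · -- the same isometry: LM
    subst hgg
    refine hlm P Q hP.pg hQ.pg hP.g1 hQ.g1 L h hcr ⟨g₁, hf₁, ?_⟩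
    intro s hs
    rcases htou s hs with rfl | rfl | rfl | rfl
    · exact i₁
    · exact j₁
    · exact k₁
    · exact l₂
  · have hsub : Sublin h := hcr.unm.1.sub
    obtain ⟨q1, q2, q3, q4, q5, q6, q7, q8, q9⟩ := hver Q hQ.pg hQ.g1
    obtain ⟨p1, p2, p3, p4, p5, p6, p7, p8, p9⟩ := hver P hP.pg hP.g1
    -- the two vertices of `Q`
    have hV : g₁ v ∈ Cl Q := q7 _ hf₁ _ ((hIn g₁ v h).2 hvh)
    have hW : g₂ w ∈ Cl Q := q7 _ hf₂ _ ((hIn g₂ w h).2 hwh)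
    have onV : ip (mv g₁ i).1 (g₁ v) = (mv g₁ i).2 := by
      have := hipmv g₁ v i
      rw [hv.on₁, sub_self] at this
      linarith
    have onV' : ip (mv g₁ j).1 (g₁ v) = (mv g₁ j).2 := by
      have := hipmv g₁ v j
      rw [hv.on₂, sub_self] at this
      linarith
    have onW : ip (mv g₂ k).1 (g₂ w) = (mv g₂ k).2 := by
      have := hipmv g₂ w k
      rw [hw.on₁, sub_self] at this
      linarith
    have onW' : ip (mv g₂ l).1 (g₂ w) = (mv g₂ l).2 := by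
      have := hipmv g₂ w l
      rw [hw.on₂, sub_self] at this
      linarith
    have n1 : mv g₁ i ≠ mv g₁ j := fun e => hv.ne (mv_inj' hact0 g₁ e)
    have n2 : mv g₂ k ≠ mv g₂ l := fun e => hw.ne (mv_inj' hact0 g₂ e)
    have n3 : mv g₁ j ≠ mv g₂ l := by
      intro e
      have e2 : ip i.1 j.1 = ip k.1 l.1 := by
        rw [← hip g₁ i j, ← hip g₂ k l, ea, e]
      rcases hP.g1.inj i hv.mem₁ j hv.mem₂ k hw.mem₁ l hw.mem₂ hv.ne hw.ne (by rw [e2]) with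
        ⟨h1, -⟩ | ⟨h1, -⟩
      · exact ik h1
      · exact il h1
    have vV : VxOf Q (mv g₁ i) (mv g₁ j) (g₁ v) := ⟨hV, i₁, j₁, n1, onV, onV'⟩
    have vW : VxOf Q (mv g₂ k) (mv g₂ l) (g₂ w) := ⟨hW, k₂, l₂, n2, onW, onW'⟩
    -- the length of the edge of `Q`
    have hui : ‖i.1‖ = 1 := hP.pg.unit i hv.mem₁
    have huk : ‖k.1‖ = 1 := hP.pg.unit k hw.mem₁
    have hβ : ip k.1 v < k.2 := p2 i j v hv k hw.mem₁ ik.symm jk.symm
    have hα : ip i.1 w < i.2 := p2 k l w hw i hv.mem₁ ik il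
    have hc := hP.g1.lt1 i hv.mem₁ k hw.mem₁ ik
    have hc1 : -1 < ip i.1 k.1 := (abs_lt.1 hc).1
    have hD : 0 < dt i.1 k.1 ^ 2 := by
      have hg := gram i.1 k.1 i.1 hui huk
      have e1 : ip i.1 i.1 = 1 := by
        have := Complex.sq_norm i.1
        rw [hui, Complex.normSq_apply] at this
        simp only [ip]
        linarith
      have e2 : ip k.1 i.1 = ip i.1 k.1 := by simp [ip]; ring
      rw [hui, e1, e2] at hg
      have : ip i.1 k.1 ^ 2 < 1 := by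
        rw [sq_lt_one_iff_abs_lt_one]; exact hc
      linarith only [hg, this]
    have hvw : ‖v - w‖ ^ 2 * dt i.1 k.1 ^ 2 = (i.2 - ip i.1 w) ^ 2 + (k.2 - ip k.1 v) ^ 2
        + 2 * ip i.1 k.1 * ((i.2 - ip i.1 w) * (k.2 - ip k.1 v)) := by
      rw [gram i.1 k.1 (v - w) hui huk, ip_sub', ip_sub', hv.on₁, hw.on₁]
      ring
    have hVW : ‖g₁ v - g₂ w‖ ^ 2 * dt i.1 k.1 ^ 2
        = ((i.2 - ip i.1 w) - (k.2 - ip k.1 v)) ^ 2 := by
      have e1 : dt i.1 k.1 ^ 2 = dt (mv g₁ i).1 (mv g₁ k).1 ^ 2 := by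
        rw [← sq_abs, ← sq_abs (dt (mv g₁ i).1 (mv g₁ k).1), hdt]
      rw [e1, gram _ _ _ (by rw [hnorm, hui]) (by rw [hnorm, huk]), ip_sub', ip_sub', onV]
      have e3 : ip (mv g₁ i).1 (g₂ w) = (mv g₁ i).2 := by rw [ea]; exact onW
      have e4 := hipmv g₁ v k
      have e5 : ip (mv g₁ k).1 (g₂ w) - (mv g₁ k).2 = ip i.1 w - i.2 := by
        rw [eb]; exact hipmv g₂ w i
      rw [e3]
      have e6 : ip (mv g₁ k).1 (g₁ v) - ip (mv g₁ k).1 (g₂ w)
          = (i.2 - ip i.1 w) - (k.2 - ip k.1 v) := by linarith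
      rw [e6]
      ring
    have hlt : ‖g₁ v - g₂ w‖ < ‖v - w‖ := by
      by_contra hcon
      push Not at hcon
      have h1 : ‖v - w‖ ^ 2 ≤ ‖g₁ v - g₂ w‖ ^ 2 := by
        have := norm_nonneg (v - w)
        nlinarith only [hcon, this]
      have h2 : ‖v - w‖ ^ 2 * dt i.1 k.1 ^ 2 ≤ ‖g₁ v - g₂ w‖ ^ 2 * dt i.1 k.1 ^ 2 :=
        mul_le_mul_of_nonneg_right h1 hD.le
      rw [hvw, hVW] at h2
      have h3 : 0 < (i.2 - ip i.1 w) * (k.2 - ip k.1 v) :=
        mul_pos (by linarith) (by linarith)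
      nlinarith only [h2, hc1, h3]
    -- the edge is a special body of `Q`
    have hlamh : lam h = 2 * ‖v - w‖ := by rw [hb, hper.1]
    have hlam : lam (hf ![g₁ v, g₂ w]) < L := by
      rw [hper.1, ← hcr.lam, hlamh]
      linarith
    have hsub' : Sublin (hf ![g₁ v, g₂ w]) := (hhul 1 ![g₁ v, g₂ w]).1
    obtain ⟨-, -, hm3⟩ := hmix Q
    obtain ⟨hfit, hto⟩ := hm3 1 ![g₁ v, g₂ w] (by
      intro t
      fin_cases t
      · exact hV
      · exact hW)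
    have hT : ({mv g₁ i, mv g₁ j, mv g₂ l} : Finset HP) ⊆ touch Q (hf ![g₁ v, g₂ w]) := by
      intro t ht
      rw [hto]
      simp only [Finset.mem_insert, Finset.mem_singleton] at ht
      rcases ht with rfl | rfl | rfl
      · exact ⟨i₁, 0, onV⟩
      · exact ⟨j₁, 0, onV'⟩
      · exact ⟨l₂, 1, onW'⟩
    have hcard : ({mv g₁ i, mv g₁ j, mv g₂ l} : Finset HP).card = 3 :=
      Finset.card_eq_three.2 ⟨_, _, _, n1, by rw [ea]; exact n2, n3, rfl⟩
    have hsp : Special Q (hf ![g₁ v, g₂ w]) :=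
      ⟨hsub', hfit, by rw [← hcard]; exact Finset.card_le_card hT,
        Or.inl ⟨g₁ v, ⟨_, _, vV⟩, (hhul 1 ![g₁ v, g₂ w]).2.1 0⟩⟩
    obtain ⟨g₃, hg₃⟩ := hcr.all' _ hsp hlam
    have m : ∀ t ∈ ({mv g₁ i, mv g₁ j, mv g₂ l} : Finset HP), mv g₃ t ∈ P :=
      fun t ht => hg₃.mem t (hT ht)
    have s1 : mv g₃ (mv g₁ i) ∈ P := m _ (by simp)
    have s2 : mv g₃ (mv g₁ j) ∈ P := m _ (by simp)
    have s3 : mv g₃ (mv g₂ l) ∈ P := m _ (by simp)
    have c1 : mv g₃ (mv g₁ i) = i ∨ mv g₃ (mv g₁ i) = j := by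
      have e1 : |ip (mv g₃ (mv g₁ i)).1 (mv g₃ (mv g₁ j)).1| = |ip i.1 j.1| := by
        rw [hip, hip]
      rcases hP.g1.inj _ s1 _ s2 i hv.mem₁ j hv.mem₂ (fun e => n1 (mv_inj' hact0 g₃ e)) hv.ne e1
        with ⟨h1, -⟩ | ⟨h1, -⟩
      · exact Or.inl h1
      · exact Or.inr h1
    have c2 : mv g₃ (mv g₁ i) = k ∨ mv g₃ (mv g₁ i) = l := by
      have e1 : |ip (mv g₃ (mv g₁ i)).1 (mv g₃ (mv g₂ l)).1| = |ip k.1 l.1| := by
        rw [hip, ea, hip]
      rcases hP.g1.inj _ s1 _ s3 k hw.mem₁ l hw.mem₂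
        (fun e => n2 (by rw [← ea]; exact mv_inj' hact0 g₃ e)) hw.ne e1 with ⟨h1, -⟩ | ⟨h1, -⟩
      · exact Or.inl h1
      · exact Or.inr h1
    rcases c1 with c1 | c1 <;> rcases c2 with c2 | c2
    · exact ik (c1.symm.trans c2)
    · exact il (c1.symm.trans c2)
    · exact jk (c1.symm.trans c2)
    · exact jl (c1.symm.trans c2)

/-- one slide: an isometry for the vertex `v` and the side `s` at the other end -/
lemma slide (hlc : LcStatement) (hsls : SlsStatement) (hver : VerStatement)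
    (hmix : MixStatement) (hhul : HulStatement) (hper : PerStatement)
    {P Q : Finset HP} (hP : Gen P) (hQ : Gen Q) {L : ℝ} {h : ℂ → ℝ} (hcr : Crit P Q L h)
    {i j k l : HP} {v w : ℂ} (hv : VxOf P i j v) (hw : VxOf P k l w) (hvh : In v h)
    (hwh : In w h) (ik : i ≠ k) (il : i ≠ l) (jk : j ≠ k) (jl : j ≠ l)
    (hlam : lam h = 2 * ‖v - w‖) :
    ∃ s, (s = k ∨ s = l) ∧ ∃ g : Iso2, Fits Q (mb g h) ∧ mv g i ∈ Q ∧ mv g j ∈ Q ∧
      mv g s ∈ Q := by
  obtain ⟨p1, p2, p3, p4, p5, p6, p7, p8, p9⟩ := hver P hP.pg hP.g1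
  have hvw : v ≠ w := by
    rintro rfl
    exact (p2 k l v hw i hv.mem₁ ik il).ne hv.on₁
  obtain ⟨s, hs, w', hw'C, hw's, hlt⟩ := hsls P hP.pg hP.g1 k l w hw v hv.cl hvw
  refine ⟨s, hs, ?_⟩
  have hsP : s ∈ P := by
    rcases hs with rfl | rfl
    · exact hw.mem₁
    · exact hw.mem₂
  have is : i ≠ s := by
    rcases hs with rfl | rfl
    · exact ik
    · exact il
  have js : j ≠ s := by
    rcases hs with rfl | rfl
    · exact jk
    · exact jl
  have hsw : ip s.1 w = s.2 := by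
    rcases hs with rfl | rfl
    · exact hw.on₁
    · exact hw.on₂
  obtain ⟨-, -, hm3⟩ := hmix P
  obtain ⟨hfit, hto⟩ := hm3 1 ![v, w'] (by
    intro t
    fin_cases t
    · exact hv.cl
    · exact hw'C)
  have hsub1 : Sublin (hf ![v, w']) := (hhul 1 ![v, w']).1
  have hl1 : lam (hf ![v, w']) < L := by
    rw [hper.1, ← hcr.lam, hlam]
    linarith
  have hfh : Fits P h := hcr.unm.1.fits
  have hti : i ∈ touch P h ∧ j ∈ touch P h := p8 i j v h hv hfh hvh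
  have htk : k ∈ touch P h ∧ l ∈ touch P h := p8 k l w h hw hfh hwh
  have hts : s ∈ touch P h := by
    rcases hs with rfl | rfl
    · exact htk.1
    · exact htk.2
  have hT : ({i, j, s} : Finset HP) ⊆ touch P (hf ![v, w']) ∩ touch P h := by
    intro t ht
    rw [Finset.mem_inter, hto]
    simp only [Finset.mem_insert, Finset.mem_singleton] at ht
    rcases ht with rfl | rfl | rfl
    · exact ⟨⟨hv.mem₁, 0, hv.on₁⟩, hti.1⟩
    · exact ⟨⟨hv.mem₂, 0, hv.on₂⟩, hti.2⟩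
    · exact ⟨⟨hsP, 1, hw's⟩, hts⟩
  have hcard : ({i, j, s} : Finset HP).card = 3 :=
    Finset.card_eq_three.2 ⟨_, _, _, hv.ne, is, js, rfl⟩
  obtain ⟨g, -, hg2, hg3⟩ := hlc P Q hP.pg hQ.pg hP.g1 hQ.g1 L hcr.all (hf ![v, w']) h hsub1
    hcr.unm.1.sub hfit hfh hl1 hcr.lam.le (by rw [← hcard]; exact Finset.card_le_card hT)
    (Or.inl ⟨v, ⟨i, j, hv⟩, (hhul 1 ![v, w']).2.1 0, hvh⟩)
  exact ⟨g, hg2, hg3 i (hT (by simp)), hg3 j (hT (by simp)), hg3 s (hT (by simp))⟩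

theorem c3b (hlc : LcStatement) (hlm : LmStatement) (huni : UniStatement)
    (hsls : SlsStatement) (hver : VerStatement) (hmix : MixStatement) (hhul : HulStatement)
    (hper : PerStatement) (hact : ActStatement) : C3bStatement := by
  intro P Q hP hQ L h hcr i j k l v w hv hw hvh hwh ik il jk jl hb
  have hlam : lam h = 2 * ‖v - w‖ := by rw [hb, hper.1]
  have hlam' : lam h = 2 * ‖w - v‖ := by rw [hlam, norm_sub_rev]
  obtain ⟨s, hs, g₁, f₁, i₁, j₁, s₁⟩ := slide hlc hsls hver hmix hhul hper hP hQ hcr hv hw hvh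
    hwh ik il jk jl hlam
  obtain ⟨t, ht, g₂, f₂, k₂, l₂, t₂⟩ := slide hlc hsls hver hmix hhul hper hP hQ hcr hw hv hwh
    hvh ik.symm jk.symm il.symm jl.symm hlam'
  have htou : ∀ s ∈ touch P h, s = i ∨ s = j ∨ s = k ∨ s = l := by
    intro s hs
    obtain ⟨-, -, hm3⟩ := hmix P
    obtain ⟨-, hto⟩ := hm3 1 ![v, w] (by
      intro t
      fin_cases t
      · exact hv.cl
      · exact hw.cl)
    rw [hb, hto] at hs
    obtain ⟨hsP, e, he⟩ := hs
    obtain ⟨p1, -⟩ := hver P hP.pg hP.g1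
    fin_cases e
    · rcases p1 i j v hv s hsP he with h | h
      · exact Or.inl h
      · exact Or.inr (Or.inl h)
    · rcases p1 k l w hw s hsP he with h | h
      · exact Or.inr (Or.inr (Or.inl h))
      · exact Or.inr (Or.inr (Or.inr h))
  rcases hs with rfl | rfl <;> rcases ht with rfl | rfl
  · exact core_case hlm huni hver hmix hhul hper hact hP hQ hcr hv hw hvh hwh ik il jk jl hb htou
      f₁ f₂ i₁ j₁ s₁ k₂ l₂ t₂
  · exact core_case hlm huni hver hmix hhul hper hact hP hQ hcr (vx_symm' hv) hw hvh hwh jk jl ik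
      il hb (fun s hs => by rcases htou s hs with h | h | h | h <;> simp [h]) f₁ f₂ j₁ i₁ s₁ k₂
      l₂ t₂
  · exact core_case hlm huni hver hmix hhul hper hact hP hQ hcr hv (vx_symm' hw) hvh hwh il ik jl
      jk hb (fun s hs => by rcases htou s hs with h | h | h | h <;> simp [h]) f₁ f₂ i₁ j₁ s₁ l₂
      k₂ t₂
  · exact core_case hlm huni hver hmix hhul hper hact hP hQ hcr (vx_symm' hv) (vx_symm' hw) hvh
      hwh jl jk il ik hb (fun s hs => by rcases htou s hs with h | h | h | h <;> simp [h]) f₁ f₂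
      j₁ i₁ s₁ l₂ k₂ t₂

end Pool.Agent.AEU.H39
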