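import Pool.Agent.Helper25_AEU.Stmt

/-!
helper39, squad AEU (Part II), module CLS: classification of the critical bodies from the cases
C1, C2, C3a, C3b, C4.
-/

namespace Pool.Agent.AEU.H39

open Pool.Agent.AEU Pool.Agent.H62T

lemma vx_symm {P : Finset HP} {s t : HP} {v : ℂ} (h : VxOf P s t v) : VxOf P t s v :=
  ⟨h.cl, h.mem₂, h.mem₁, h.ne.symm, h.on₂, h.on₁⟩

theorem cls (hc1 : C1Statement) (hc2 : C2Statement) (hc3a : C3aStatement) (hc3b : C3bStatement)
    (hc4 : C4Statement) (hver : VerStatement) : ClsStatement := by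
  intro P Q hP hQ L h hcr
  obtain ⟨v, ⟨i, j, hv⟩, hvh⟩ := hc1 P Q hP hQ L h hcr
  by_cases h1 : ∀ v', Vx P v' → In v' h → v' = v
  · rcases hc2 P Q hP hQ L h hcr i j v hv hvh h1 with ⟨q, d, hB⟩ | ⟨q, r, x, y, g, g', hE⟩
    · exact Or.inr (Or.inl ⟨i, j, q, v, d, hB⟩)
    · exact Or.inr (Or.inr ⟨i, j, q, r, v, x, y, g, g', hE⟩)
  · push Not at h1
    obtain ⟨w, ⟨k, l, hw⟩, hwh, hwv⟩ := h1
    left
    -- there is no non-adjacent pair
    have hadj : ∀ a b c d v' w', VxOf P a b v' → VxOf P c d w' → In v' h → In w' h →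
        a = c ∨ a = d ∨ b = c ∨ b = d := by
      intro a b c d v' w' hv' hw' hv'h hw'h
      by_contra hcon
      push Not at hcon
      obtain ⟨n1, n2, n3, n4⟩ := hcon
      by_cases hh : h = hf ![v', w']
      · exact hc3b P Q hP hQ L h hcr a b c d v' w' hv' hw' hv'h hw'h n1 n2 n3 n4 hh
      · exact hc3a P Q hP hQ L h hcr a b c d v' w' hv' hw' hv'h hw'h n1 n2 n3 n4 hh
    obtain ⟨-, -, -, huniq, -⟩ := hver P hP.pg hP.g1
    -- two vertices with the same sides are equal
    have key : ∀ a b c : HP, VxOf P a b v → VxOf P b c w → a ≠ c := by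
      intro a b c hab hbc hac
      subst hac
      exact hwv (huniq b a w v hbc (vx_symm hab))
    rcases hadj i j k l v w hv hw hvh hwh with e | e | e | e
    · subst e
      have hne := key j i l (vx_symm hv) hw
      exact ⟨j, i, l, v, w, hc4 P Q hP hQ L h hcr j i l v w (vx_symm hv) hw hvh hwh hne hadj⟩
    · subst e
      have hne := key j i k (vx_symm hv) (vx_symm hw)
      exact ⟨j, i, k, v, w, hc4 P Q hP hQ L h hcr j i k v w (vx_symm hv) (vx_symm hw) hvh hwh hne
        hadj⟩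
    · subst e
      have hne := key i j l hv hw
      exact ⟨i, j, l, v, w, hc4 P Q hP hQ L h hcr i j l v w hv hw hvh hwh hne hadj⟩
    · subst e
      have hne := key i j k hv (vx_symm hw)
      exact ⟨i, j, k, v, w, hc4 P Q hP hQ L h hcr i j k v w hv (vx_symm hw) hvh hwh hne hadj⟩

end Pool.Agent.AEU.H39
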