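import Pool.Agent.Helper25_AEU.Stmt

/-!
helper39, squad AEU (Part II), module EXE: bodies of type E do not occur at the critical level.
-/

namespace Pool.Agent.AEU.H39

open Pool.Agent.AEU Pool.Agent.H62T
open Pool.Agent.H16F (Sublin)

lemma ip_smul_add (u a b : ℂ) (s t : ℝ) :
    ip u (s • a + t • b) = s * ip u a + t * ip u b := by
  simp [ip]
  ring

/-- strict inequalities at the end points give a strict inequality between them -/
lemma ip_lt_of_wbtw {u a b x : ℂ} {c : ℝ} (h : Wbtw ℝ a x b) (ha : ip u a < c)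
    (hb : ip u b < c) : ip u x < c := by
  obtain ⟨t, ⟨h0, h1⟩, rfl⟩ := h
  have e : (AffineMap.lineMap a b : ℝ →ᵃ[ℝ] ℂ) t = (1 - t) • a + t • b := by
    rw [AffineMap.lineMap_apply_module]
  rw [e, ip_smul_add]
  rcases h0.eq_or_lt with h | h
  · subst h
    simpa using ha
  · nlinarith

lemma mv_inj (hact : ActStatement) (g : Iso2) {s t : HP} (h : mv g s = mv g t) : s = t := by
  obtain ⟨h1, h2, -⟩ := hact
  have e : mv g⁻¹ (mv g s) = mv g⁻¹ (mv g t) := by rw [h]
  rw [← h1, ← h1, inv_mul_cancel, h2, h2] at e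
  exact e

/-- the two isometries of type E exchange the sides `i` and `j`; contradiction with the flip
condition for a ghost of `Q` -/
lemma flip_false (hact : ActStatement) (huni : UniStatement) (hell : EllStatement)
    {P Q : Finset HP} (hP : Gen P) (hQ : Gen Q) {i j q r : HP} {g g' : Iso2}
    (iP : i ∈ P) (jP : j ∈ P) (qP : q ∈ P) (rP : r ∈ P) (ij : i ≠ j) (qr : q ≠ r) (qi : q ≠ i)
    (qj : q ≠ j) (ri : r ≠ i) (rj : r ≠ j) (gi : mv g i ∈ Q) (gj : mv g j ∈ Q)
    (gq : mv g q ∈ Q) (gi' : mv g' i ∈ Q) (gj' : mv g' j ∈ Q) (gr' : mv g' r ∈ Q) (gne : g ≠ g')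
    (hac : Acute {i, q, r}) {a b c : HP} (habc : Tri Q a b c)
    (hl : ell3 a b c = ell3 i q r) : False := by
  have hact0 := hact
  obtain ⟨h1, h2, -, -, -, -, -, hip, -⟩ := hact
  obtain ⟨-, hu⟩ := huni
  obtain ⟨-, -, he, -⟩ := hell
  rcases (hu P Q hP.pg hQ.pg hP.g1 hQ.g1 g g').1 i iP j jP ij gi gj gi' gj' with hgg | ⟨e1, e2⟩
  · exact gne hgg
  have f1 : ∀ s, mv (g * g'⁻¹) (mv g' s) = mv g s := by
    intro s
    rw [← h1, mul_assoc, inv_mul_cancel, mul_one]
  have hqr' : mv g q ≠ mv g' r := by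
    intro hh
    have e3 : ip q.1 i.1 = ip r.1 j.1 := by
      rw [← hip g q i, ← hip g' r j, hh, e1]
    rcases hP.g1.inj q qP i iP r rP j jP qi rj (by rw [e3]) with ⟨h, -⟩ | ⟨h, -⟩
    · exact qr h
    · exact qj h
  have T1 : Tri Q (mv g i) (mv g j) (mv g q) :=
    ⟨gi, gj, gq, fun h => ij (mv_inj hact0 g h), fun h => qi (mv_inj hact0 g h).symm,
      fun h => qj (mv_inj hact0 g h).symm⟩
  have T2 : Tri Q (mv g i) (mv g j) (mv g' r) :=
    ⟨gi, gj, gr', fun h => ij (mv_inj hact0 g h),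
      fun h => rj (mv_inj hact0 g' (e1.symm.trans h)).symm,
      fun h => ri (mv_inj hact0 g' (e2.symm.trans h)).symm⟩
  have hfl := hQ.g2.flip (mv g i) (mv g j) (mv g q) (mv g' r) a b c T1 T2 hqr' habc
    (g * g'⁻¹) (by rw [e1, f1]) (by rw [e2, f1])
  apply hfl
  rw [f1, hl]
  have m1 : i ∈ ({i, q, r} : Finset HP) := by simp
  have m2 : q ∈ ({i, q, r} : Finset HP) := by simp
  have m3 : r ∈ ({i, q, r} : Finset HP) := by simp
  exact he g i q r (hP.pg.unit i iP) (hP.pg.unit q qP) (hP.pg.unit r rP)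
    (hac i m1 q m2 qi.symm) (hac q m2 r m3 qr) (hac r m3 i m1 ri)

lemma exists_triple {S : Finset HP} (h : S.card = 3) :
    ∃ a b c : HP, a ≠ b ∧ a ≠ c ∧ b ≠ c ∧ S = {a, b, c} := by
  obtain ⟨a, b, c, h1, h2, h3, h4⟩ := Finset.card_eq_three.1 h
  exact ⟨a, b, c, h1, h2, h3, h4⟩

/-- the vertex of the triangle is not collinear with the other points -/
lemma not_collinear (hver : VerStatement) {P : Finset HP} (hP : Gen P) {i j q r : HP}
    {v x y : ℂ} (vi : VxOf P i j v) (qP : q ∈ P) (rP : r ∈ P) (ne : q ≠ r) (qi : q ≠ i)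
    (qj : q ≠ j) (ri : r ≠ i) (rj : r ≠ j) (xq : ip q.1 x = q.2) (yr : ip r.1 y = r.2)
    (xs : ∀ s ∈ P, s ≠ q → ip s.1 x < s.2) (ys : ∀ s ∈ P, s ≠ r → ip s.1 y < s.2) :
    ¬ Collinear ℝ {x, v, y} := by
  obtain ⟨-, hv2, hv3, -⟩ := hver P hP.pg hP.g1
  have xC : x ∈ Cl P := by
    intro s hs
    by_cases h : s = q
    · subst h; exact xq.le
    · exact (xs s hs h).le
  have yC : y ∈ Cl P := by
    intro s hs
    by_cases h : s = r
    · subst h; exact yr.le
    · exact (ys s hs h).le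
  have hvq := hv2 i j v vi q qP qi qj
  have hvr := hv2 i j v vi r rP ri rj
  have xv : x ≠ v := by
    rintro rfl
    exact (xs i vi.mem₁ qi.symm).ne vi.on₁
  have yv : y ≠ v := by
    rintro rfl
    exact (ys i vi.mem₁ ri.symm).ne vi.on₁
  intro hc
  rcases hc.wbtw_or_wbtw_or_wbtw with h | h | h
  · -- `v` between `x` and `y`
    have hs : Sbtw ℝ x v y := ⟨h, xv.symm, yv.symm⟩
    have hm : v ∈ openSegment ℝ x y := by
      rw [openSegment_eq_image_lineMap]
      obtain ⟨t, ht, rfl⟩ := (sbtw_iff_mem_image_Ioo_and_ne.1 hs).1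
      exact ⟨t, ht, rfl⟩
    exact xv (hv3 v ⟨i, j, vi⟩ x xC y yC hm).1
  · -- `y` between `v` and `x`
    exact (ip_lt_of_wbtw h hvr (xs r rP ne.symm)).ne yr
  · -- `x` between `y` and `v`
    exact (ip_lt_of_wbtw h (ys q qP ne) hvq).ne xq

theorem exe (hsld : SldStatement) (hk4 : K4Statement) (huni : UniStatement)
    (hgho : GhoStatement) (hell : EllStatement) (hper : PerStatement) (hact : ActStatement)
    (hver : VerStatement) (hmix : MixStatement) (hhul : HulStatement) : ExeStatement := by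
  intro P Q hP hQ L h hcr hG i j q r v x y g g' hE
  obtain ⟨vi, qP, rP, ne, qi, qj, ri, rj, xq, yr, xs, ys, body, fits, gi, gj, gq, fits', gi', gj',
    gr', gne⟩ := hE
  have xC : x ∈ Cl P := by
    intro s hs
    by_cases h : s = q
    · subst h; exact xq.le
    · exact (xs s hs h).le
  have yC : y ∈ Cl P := by
    intro s hs
    by_cases h : s = r
    · subst h; exact yr.le
    · exact (ys s hs h).le
  obtain ⟨s, hs, v', v'C, hv's, hlt⟩ := hsld P hP.pg hP.g1 i j v vi x xC y yC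
    (not_collinear hver hP vi qP rP ne qi qj ri rj xq yr xs ys)
  -- the side on which the new point lies, and the other one
  obtain ⟨a, b, aP, bP, ab, qa, qb, ra, rb, ga, gb, ga', gb', hv'a⟩ : ∃ a b : HP, a ∈ P ∧ b ∈ P ∧
      a ≠ b ∧ q ≠ a ∧ q ≠ b ∧ r ≠ a ∧ r ≠ b ∧ mv g a ∈ Q ∧ mv g b ∈ Q ∧ mv g' a ∈ Q ∧
      mv g' b ∈ Q ∧ ip a.1 v' = a.2 := by
    rcases hs with rfl | rfl
    · exact ⟨s, j, vi.mem₁, vi.mem₂, vi.ne, qi, qj, ri, rj, gi, gj, gi', gj', hv's⟩
    · exact ⟨s, i, vi.mem₂, vi.mem₁, vi.ne.symm, qj, qi, rj, ri, gj, gi, gj', gi', hv's⟩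
  -- the shorter body
  obtain ⟨-, hp3, -⟩ := hper
  have hlam : lam (hf ![v', x, y]) < L := by
    rw [← hcr.lam, body, hp3, hp3]
    have e1 : ‖v' - x‖ = ‖x - v'‖ := norm_sub_rev _ _
    have e2 : ‖y - v'‖ = ‖v' - y‖ := norm_sub_rev _ _
    have e3 : ‖v - x‖ = ‖x - v‖ := norm_sub_rev _ _
    have e4 : ‖y - v‖ = ‖v - y‖ := norm_sub_rev _ _
    rw [e1, e2, e3, e4]
    linarith
  have hsub : Sublin (hf ![v', x, y]) := (hhul 2 ![v', x, y]).1
  obtain ⟨-, -, hm3⟩ := hmix P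
  obtain ⟨hfit, htou⟩ := hm3 2 ![v', x, y] (by
    intro k
    fin_cases k
    · exact v'C
    · exact xC
    · exact yC)
  have hST : ({a, q, r} : Finset HP) ⊆ touch P (hf ![v', x, y]) := by
    intro t ht
    rw [htou]
    simp only [Finset.mem_insert, Finset.mem_singleton] at ht
    rcases ht with rfl | rfl | rfl
    · exact ⟨aP, 0, hv'a⟩
    · exact ⟨qP, 1, xq⟩
    · exact ⟨rP, 2, yr⟩
  by_cases hsp : ∃ h'', Special P h'' ∧ lam h'' < L ∧ ({a, q, r} : Finset HP) ⊆ touch P h''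
  · -- a shorter special body touches the triple
    obtain ⟨h'', hs'', hl'', ht''⟩ := hsp
    obtain ⟨g'', hg''⟩ := hcr.all h'' hs'' hl''
    have m : ∀ t ∈ ({a, q, r} : Finset HP), mv g'' t ∈ Q := fun t ht => hg''.mem t (ht'' ht)
    exact gne (hk4 P Q hP.pg hQ.pg hP.g1 hQ.g1 g g' g'' a b q r aP bP qP rP ab qa.symm ra.symm
      qb.symm rb.symm ne ga gb gq ga' gb' gr' (m a (by simp)) (m q (by simp)) (m r (by simp))).1
  · push Not at hsp
    have hcard : ({a, q, r} : Finset HP).card = 3 :=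
      Finset.card_eq_three.2 ⟨a, q, r, qa.symm, ra.symm, ne, rfl⟩
    have hgh : Ghost P {a, q, r} := by
      refine ⟨?_, hcard, hf ![v', x, y], hsub, hfit, hST, ?_⟩
      · intro t ht
        simp only [Finset.mem_insert, Finset.mem_singleton] at ht
        rcases ht with rfl | rfl | rfl
        · exact aP
        · exact qP
        · exact rP
      · intro h' hs' ht'
        by_contra hcon
        push Not at hcon
        exact hsp h' hs' (lt_of_le_of_lt hcon hlam) ht'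
    obtain ⟨hac, -, -, -, -, -, hmin⟩ := hgho P hP _ hgh
    have hellL : ell {a, q, r} < L := lt_of_le_of_lt (hmin _ hsub hfit hST) hlam
    obtain ⟨S', hS', hlS'⟩ := hG _ hgh hellL
    obtain ⟨c, d, e, cd, ce, de, rfl⟩ := exists_triple hS'.2.1
    have hT : Tri Q c d e :=
      ⟨hS'.1 (by simp), hS'.1 (by simp), hS'.1 (by simp), cd, ce, de⟩
    rw [hell.1 c d e cd ce de, hell.1 a q r qa.symm ra.symm ne] at hlS'
    exact flip_false hact huni hell hP hQ aP bP qP rP ab ne qa qb ra rb ga gb gq ga' gb' gr' gne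
      hac hT hlS'

end Pool.Agent.AEU.H39
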