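import Pool.Agent.Helper25_AEU.Stmt

/-!
helper39, squad AEU (Part II), module TAM: at the critical level all unmatched special bodies are
of type A or B.
-/

namespace Pool.Agent.AEU.H39

open Pool.Agent.AEU Pool.Agent.H62T

/-- one-sided step: a critical body is of type A or B, so it touches three sides -/
lemma crit_AB (hcls : ClsStatement) (hexe : ExeStatement) {P Q : Finset HP} (hP : Gen P)
    (hQ : Gen Q) {L : ℝ} (hG : GhP P Q L) {h : ℂ → ℝ} (hcr : Crit P Q L h) :
    (∃ i j k v w, TypeA P h i j k v w) ∨ (∃ i j q v d, TypeB P h i j q v d) := by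
  rcases hcls P Q hP hQ L h hcr with hA | hB | ⟨i, j, q, r, v, x, y, g, g', hE⟩
  · exact Or.inl hA
  · exact Or.inr hB
  · exact (hexe P Q hP hQ L h hcr hG i j q r v x y g g' hE).elim

lemma tri_card {P : Finset HP} {i j k : HP} (h : Tri P i j k) :
    ({i, j, k} : Finset HP).card = 3 := by
  obtain ⟨-, -, -, h1, h2, h3⟩ := h
  exact Finset.card_eq_three.2 ⟨i, j, k, h1, h2, h3, rfl⟩

lemma crit_card (hcls : ClsStatement) (hexe : ExeStatement) (htya : TyaStatement)
    (htyb : TybStatement) {P Q : Finset HP} (hP : Gen P) (hQ : Gen Q) {L : ℝ}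
    (hG : GhP P Q L) {h : ℂ → ℝ} (hcr : Crit P Q L h) : (touch P h).card = 3 := by
  rcases crit_AB hcls hexe hP hQ hG hcr with ⟨i, j, k, v, w, hA⟩ | ⟨i, j, q, v, d, hB⟩
  · obtain ⟨h1, h2, -⟩ := htya P hP.pg hP.g1 h i j k v w hA
    rw [h2]
    exact tri_card h1
  · obtain ⟨h1, h2, -⟩ := htyb P hP.pg hP.g1 h i j q v d hB
    rw [h2]
    exact tri_card h1

/-- all unmatched special bodies at the critical level touch three sides -/
lemma all_card (hcls : ClsStatement) (hexe : ExeStatement) (htya : TyaStatement)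
    (htyb : TybStatement) {P Q : Finset HP} (hP : Gen P) (hQ : Gen Q) {L : ℝ}
    (hM : AllM P Q L) (hM' : AllM Q P L) (hG : GhP P Q L) (hG' : GhP Q P L) :
    (∀ h, Unm P Q h → lam h = L → (touch P h).card = 3) ∧
      ∀ h, Unm Q P h → lam h = L → (touch Q h).card = 3 := by
  classical
  -- the set of the numbers of contacts
  let T : Set ℕ := {m | (∃ h, Unm P Q h ∧ lam h = L ∧ (touch P h).card = m) ∨
    ∃ h, Unm Q P h ∧ lam h = L ∧ (touch Q h).card = m}
  have hbd : ∀ m ∈ T, m ≤ P.card + Q.card := by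
    rintro m (⟨h, -, -, rfl⟩ | ⟨h, -, -, rfl⟩)
    · have := Finset.card_le_card (Finset.filter_subset (fun s : HP => h s.1 = s.2) P)
      exact this.trans (Nat.le_add_right _ _)
    · have := Finset.card_le_card (Finset.filter_subset (fun s : HP => h s.1 = s.2) Q)
      exact this.trans (Nat.le_add_left _ _)
  by_cases hT : T.Nonempty
  · have hfin : T.Finite := (Set.finite_Iic (P.card + Q.card)).subset hbd
    obtain ⟨m, hm⟩ : ∃ m, IsGreatest T m := by
      obtain ⟨m, hmT, hmax⟩ := Set.exists_max_image T id hfin hT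
      exact ⟨m, hmT, hmax⟩
    have hm3 : m = 3 := by
      rcases hm.1 with ⟨h, hu, hl, hc⟩ | ⟨h, hu, hl, hc⟩
      · have hcr : Crit P Q L h := ⟨hM, hM', hu, hl,
          fun h' hu' hl' => by rw [hc]; exact hm.2 (Or.inl ⟨h', hu', hl', rfl⟩),
          fun h' hu' hl' => by rw [hc]; exact hm.2 (Or.inr ⟨h', hu', hl', rfl⟩)⟩
        rw [← hc]
        exact crit_card hcls hexe htya htyb hP hQ hG hcr
      · have hcr : Crit Q P L h := ⟨hM', hM, hu, hl,
          fun h' hu' hl' => by rw [hc]; exact hm.2 (Or.inr ⟨h', hu', hl', rfl⟩),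
          fun h' hu' hl' => by rw [hc]; exact hm.2 (Or.inl ⟨h', hu', hl', rfl⟩)⟩
        rw [← hc]
        exact crit_card hcls hexe htya htyb hQ hP hG' hcr
    subst hm3
    exact ⟨fun h hu hl => le_antisymm (hm.2 (Or.inl ⟨h, hu, hl, rfl⟩)) hu.1.three,
      fun h hu hl => le_antisymm (hm.2 (Or.inr ⟨h, hu, hl, rfl⟩)) hu.1.three⟩
  · exact ⟨fun h hu hl => (hT ⟨_, Or.inl ⟨h, hu, hl, rfl⟩⟩).elim,
      fun h hu hl => (hT ⟨_, Or.inr ⟨h, hu, hl, rfl⟩⟩).elim⟩

lemma crit_of {P Q : Finset HP} {L : ℝ} (hM : AllM P Q L) (hM' : AllM Q P L)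
    (h3 : ∀ h, Unm P Q h → lam h = L → (touch P h).card = 3)
    (h3' : ∀ h, Unm Q P h → lam h = L → (touch Q h).card = 3) {h : ℂ → ℝ} (hu : Unm P Q h)
    (hl : lam h = L) : Crit P Q L h :=
  ⟨hM, hM', hu, hl, fun h' hu' hl' => by rw [h3 h hu hl, h3 h' hu' hl'],
    fun h' hu' hl' => by rw [h3 h hu hl, h3' h' hu' hl']⟩

lemma ok_of (hlm : LmStatement) {P Q : Finset HP} (hP : Gen P) (hQ : Gen Q) {L : ℝ}
    (hM : AllM P Q L) (hM' : AllM Q P L)
    (h3 : ∀ h, Unm P Q h → lam h = L → (touch P h).card = 3)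
    (h3' : ∀ h, Unm Q P h → lam h = L → (touch Q h).card = 3) : Ok P Q L := by
  intro h hs hl
  by_cases hg : ∃ g, Mat P Q g h
  · exact Or.inl hg
  · have hu : Unm P Q h := ⟨hs, hg⟩
    have hl' : lam h = L := by
      rcases hl.lt_or_eq with hlt | heq
      · exact (hg (hM h hs hlt)).elim
      · exact heq
    exact Or.inr ⟨h3 h hu hl', hlm P Q hP.pg hQ.pg hP.g1 hQ.g1 L h (crit_of hM hM' h3 h3' hu hl')⟩

theorem tam (hcls : ClsStatement) (hexe : ExeStatement) (hlm : LmStatement)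
    (htya : TyaStatement) (htyb : TybStatement) : TamStatement := by
  intro P Q hP hQ L hM hM' hG hG'
  obtain ⟨h3, h3'⟩ := all_card hcls hexe htya htyb hP hQ hM hM' hG hG'
  exact ⟨ok_of hlm hP hQ hM hM' h3 h3', ok_of hlm hQ hP hM' hM h3' h3,
    fun h hu hl => crit_AB hcls hexe hP hQ hG (crit_of hM hM' h3 h3' hu hl)⟩

end Pool.Agent.AEU.H39
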